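import Pool.Agent.W953.RD.CMLow

/-!
# `M[1]` and `W[1]`: reductions on few and on many numbers of edges

`Red s d` is the existence of nonuniform reductions of fpt size from the clique problem (cliques of
`s k` vertices versus no clique of `k` vertices, `k` is the parameter) to `p-log-SAT(Γ_{1,d})`: for
a graph with `n` vertices a circuit of size `f k * n ^ c` computes a formula with clauses of at
most `d` literals over at most `g k * log n` variables. So `Red id d` for some `d` is the
nonuniform form of `W[1] = M[1]`. `RedOn s d t W` is the existence of such reductions with at most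
`t` NOT gates which, for every `m`, have to be right only on the graphs with at least `m` and less
than `m + W` edges.

Here it is shown that the two are equivalent if `1 ≤ W ≤ 2 ^ t`, and that there are no such
reductions, not even randomised truth-table reductions with `Q` questions, if `n ^ ε ≤ W ≤ n ^ 2`
and `((Q + 1) * 2 ^ t) ^ (1 + ε) ≤ W`.
-/

set_option autoImplicit false

namespace Pool.Agent.Results.MP_ddf912_lc.EdgeCountWindows

open Filter Pool.Agent.W953.RD.CM

open Classical in
/-- (1) If `1 ≤ W ≤ 2 ^ t` then `RedOn s d t W` is equivalent to `Red s d`. (2) For all `ε > 0`, all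
functions `f`, `g`, `s` with `k ≤ s k` and all `c`, `d`, for large `k` there is `α > 0` such that
for large `n`: if `n ^ ε ≤ W ≤ n ^ 2` and `((Q + 1) * 2 ^ t) ^ (1 + ε) ≤ W` then every randomised
truth-table reduction with at most `Q` questions, `t` NOT gates, `g k * (log n + 1)` variables and
`f k * n ^ c` gates is right with probability less than `1 / 2 + n ^ (-α)` on some graph with the
promised gap and with at least `m` and less than `m + W` edges, for all `m ≤ n ^ 2 / 25`. -/
theorem result :
    (∀ (s : ℕ → ℕ) (d : ℕ) (t W : ℕ → ℕ → ℕ), (∀ k n, 1 ≤ W k n ∧ W k n ≤ 2 ^ t k n) →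
      (RedOn s d t W ↔ Red s d)) ∧
    (∀ ε : ℝ, 0 < ε → ∀ f g s : ℕ → ℕ, (∀ k, k ≤ s k) → ∀ c d : ℕ,
      ∀ᶠ k : ℕ in atTop, ∃ α : ℝ, 0 < α ∧ ∀ᶠ n : ℕ in atTop, ∀ t W m Q : ℕ,
        (n : ℝ) ^ ε ≤ W → W ≤ n ^ 2 → (((Q + 1) * 2 ^ t : ℕ) : ℝ) ^ (1 + ε) ≤ W →
        25 * m ≤ n ^ 2 →
        ∀ (Ω : Type) [Fintype Ω] (μ : Ω → ℝ), (∀ o, 0 ≤ μ o) → ∑ o, μ o = 1 →
          ∀ (v q : Ω → ℕ) (R : ∀ o, TT n (v o) d (q o)),
            (∀ o, q o ≤ Q ∧ (R o).C.nots ≤ t ∧ v o ≤ g k * (Nat.log 2 n + 1) ∧
              (R o).C.size ≤ f k * n ^ c) →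
            ∃ x : Fin (n.choose 2) → Bool, m ≤ edges x ∧ edges x < m + W ∧
              (¬ (graph x).CliqueFree (s k) ∨ (graph x).CliqueFree k) ∧
              ∑ o ∈ Finset.univ.filter (fun o => (R o).Right (s k) k x), μ o <
                1 / 2 + (n : ℝ) ^ (-α)) :=
  ⟨red_iff, fun ε hε f g s hs c d => low ε hε f g s hs c d⟩

end Pool.Agent.Results.MP_ddf912_lc.EdgeCountWindows
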