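import Mathlib
import Pool.Agent.W980.GR.Red
import Pool.Agent.W980.GR.MOne

/-!
# `W[1]` is not contained in `M[1]` with respect to reductions by ideal parallel machines

The reductions are computed by ideal parallel machines (priority CRCW PRAMs with arbitrary
instruction set, unbounded words and memory, and even with list searches as single steps) in
parallel time `o(log n / log log n)` with `f(k) * n ^ c` processors.

* First part: there are random pairs of graphs `(G₀, G₁)` such that `G₁` has a `k`-clique and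
  (almost surely) all cliques of `G₀` have at most `δ k` vertices, and every such machine with
  `n ^ (k / C)` processors and with `N` output bits gives the same output for `G₀` and `G₁` except
  with probability `N * n ^ (-1 / C)`: the clique problem has no compression to `n ^ o(1)` bits.
* Second part: there are no randomised truth-table reductions from the clique problem to the
  satisfiability of formulas with at most `d` literals per clause and with at most
  `g(k) * log (f(k) * n ^ c)` variables, not even for graphs that have a `k`-clique or have no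
  cliques with more than `δ k` vertices.
* Third part: the special case of many-one reductions.
-/

namespace Pool.Agent.Results.MP_ddf912_lc.ParallelReductions

open DomAC0 Filter Topology Pool.Agent.H72.Clq Pool.Agent.W980.GR

open Classical in
theorem result :
    (∀ δ : ℝ, 0 < δ → ∃ C : ℕ, 1 ≤ C ∧
      ∀ T k n : ℕ, 1 ≤ T → C ≤ k → (C * T * k) ^ (C * T) ≤ n →
        ∃ (Λ : Type) (_ : Fintype Λ) (μ : Λ → ℝ) (G₀ G₁ : Λ → SimpleGraph (Fin n)),
          (∀ l, 0 ≤ μ l) ∧ ∑ l, μ l = 1 ∧ (∀ l, ¬ (G₁ l).CliqueFree k) ∧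
          (∑ l, μ l * (if CliquesLe (δ * k) (G₀ l) then 0 else 1)) ≤ (n : ℝ) ^ (-((k : ℝ) / C)) ∧
          ∀ P K : ℕ, (P : ℝ) ≤ (n : ℝ) ^ ((k : ℝ) / C) → (K : ℝ) ≤ (n : ℝ) ^ ((k : ℝ) / C) →
            ∀ (I : Type) [Fintype I],
            (∀ R : OutMachine (Pairs n) P I, R.Lists K →
              ∑ l, μ l * (if R.output T (adjBits (G₀ l)) ≠ R.output T (adjBits (G₁ l))
                then 1 else 0) ≤ (Fintype.card I : ℝ) * (n : ℝ) ^ (-(1 / (C : ℝ)))) ∧
            ∀ (Ω : Type) [Fintype Ω] (w : Ω → ℝ), (∀ r, 0 ≤ w r) → ∑ r, w r = 1 →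
              ∀ (R : Ω → OutMachine (Pairs n) P I) (dec : Ω → (I → Bool) → Bool),
              (∀ r, (R r).Lists K) → ∃ G : SimpleGraph (Fin n),
                (¬ G.CliqueFree k ∧ prAns w R dec T (adjBits G) true ≤
                  1 / 2 + ((Fintype.card I : ℝ) + 1) * (n : ℝ) ^ (-(1 / (C : ℝ)))) ∨
                (CliquesLe (δ * k) G ∧ prAns w R dec T (adjBits G) false ≤
                  1 / 2 + ((Fintype.card I : ℝ) + 1) * (n : ℝ) ^ (-(1 / (C : ℝ))))) ∧
    (∀ δ : ℝ, 0 < δ → ∃ α : ℝ, 0 < α ∧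
      ∀ (d c : ℕ) (f g : ℕ → ℕ) (T : ℕ → ℕ → ℕ), (∀ k n, 1 ≤ T k n) →
        (∀ k, Tendsto (fun n : ℕ => (T k n : ℝ) * Real.log (Real.log n) / Real.log n)
          atTop (𝓝 0)) →
        ∀ᶠ k : ℕ in atTop, ∀ᶠ n : ℕ in atTop, ∀ P K v q : ℕ,
          P ≤ f k * n ^ c → K ≤ f k * n ^ c → v ≤ g k * (Nat.log 2 (f k * n ^ c) + 1) →
          (q : ℝ) ≤ (n : ℝ) ^ α →
          ∀ (Ω : Type) [Fintype Ω] (w : Ω → ℝ), (∀ r, 0 ≤ w r) → ∑ r, w r = 1 →
            ∀ (R : Ω → OutMachine (Pairs n) P (Fin q × Clause v d))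
              (ev : Ω → (Fin q → Bool) → Bool), (∀ r, (R r).Lists K) →
              ∃ G : SimpleGraph (Fin n),
                (¬ G.CliqueFree k ∧
                  prAns w R (fun r => evalSat (ev r)) (T k n) (adjBits G) true ≤
                  1 / 2 + (n : ℝ) ^ (-α)) ∨
                (CliquesLe (δ * k) G ∧
                  prAns w R (fun r => evalSat (ev r)) (T k n) (adjBits G) false ≤
                  1 / 2 + (n : ℝ) ^ (-α))) ∧
    (∀ (d c : ℕ) (f g : ℕ → ℕ) (T : ℕ → ℕ → ℕ), (∀ k n, 1 ≤ T k n) →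
      (∀ k, Tendsto (fun n : ℕ => (T k n : ℝ) * Real.log (Real.log n) / Real.log n)
        atTop (𝓝 0)) →
      ∀ᶠ k : ℕ in atTop, ∀ᶠ n : ℕ in atTop, ∀ P K v : ℕ,
        P ≤ f k * n ^ c → K ≤ f k * n ^ c → v ≤ g k * (Nat.log 2 (f k * n ^ c) + 1) →
        ∀ R : OutMachine (Pairs n) P (Clause v d), R.Lists K →
          ∃ G : SimpleGraph (Fin n),
            ¬ (Sat (R.output (T k n) (adjBits G)) ↔ ¬ G.CliqueFree k)) :=
  ⟨fun δ hδ => gap_output δ hδ, fun δ hδ => m1_red δ hδ,
    fun d c f g T hT1 hT => no_many_one d c f g T hT1 hT⟩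

end Pool.Agent.Results.MP_ddf912_lc.ParallelReductions
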